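import Pool.Agent.ZFM.SpaceX3

/-! # A Tychonoff space which is a countable union of realcompact `z`-embedded subspaces but is
not realcompact, in a model of `ZF` -/

namespace Pool.Agent.Results.MP_5f3c77_lc.RealcompactUnion

open Pool.Agent.ZFM

/-- There is a (countable, well-founded) model `M` of `ZF` and in it a Tychonoff space `(X, T)` and
a sequence `S : ω → Q` of subsets of `X` covering `X`, such that each `S n` with the subspace
topology is realcompact and `z`-embedded in `X`, while `(X, T)` is not realcompact. -/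
theorem result : ∃ (M : Type) (_ : Membership M M) (ℛ : RealLine M),
    IsZF M ∧ Countable M ∧ WellFounded (fun a b : M => a ∈ b) ∧
    ∃ X T w Q S : M, ℛ.Tychonoff X T ∧ IsOmega w ∧ IsFun S w Q ∧
      (∀ n Y : M, Rel S n Y → IsSub Y X ∧
        ∃ TY : M, IsSubspaceTop T Y TY ∧ ℛ.Realcompact Y TY ∧ ℛ.ZEmbedded X T Y TY) ∧
      (∀ x : M, x ∈ X → ∃ n Y : M, Rel S n Y ∧ x ∈ Y) ∧
      ¬ ℛ.Realcompact X T := by
  obtain ⟨C⟩ := exists_cohenModel RQ
  obtain ⟨S, Q, hSQ, hS, hS2⟩ := C.exists_seq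
  refine ⟨C.N, C.mem, C.realLine, C.zf, C.countable, C.wf, C.X, C.TX C.X, C.omega, Q, S,
    C.tychonoff_TX (fun _ h => h), C.isOmega, hSQ, ?_, ?_, C.not_realcompact_X⟩
  · intro ν Y hY
    obtain ⟨n, rfl⟩ := (C.mem_omega ν).1 (hS2 ν Y hY)
    rw [hS] at hY
    exact ⟨hY.sub, C.TX Y, C.isSubspaceTop_TX hY.sub, C.realcompact_Xn hY, C.zEmbedded hY⟩
  · intro x hx
    obtain ⟨s, rfl⟩ := (C.mem_X x).1 hx
    obtain ⟨Y, hY⟩ := C.exists_Xn (C.nat s.card)
    exact ⟨C.nat s.card, Y, (hS _ _).2 hY, (hY.fin_mem s).2 le_rfl⟩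

end Pool.Agent.Results.MP_5f3c77_lc.RealcompactUnion
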